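import Pool.Agent.R989.Tr5

/-!
# Power growth of the coefficient truncation operator in `L_p`, `0 < p < 2`

For every `p` in `(0, 2)` the norm `N^comp_{n,p}` of the coefficient truncation operator on complex
polynomials of degree at most `n` is at least `c n^δ` for all `n ≥ 1`, with `c, δ > 0` depending
only on `p`.  In particular it is unbounded for every `p` in `(0, 2)`.

Proof.  On polynomials whose nonzero coefficients have modulus at least one the truncation is
multiplicative for products `P(z) Q(z^K)` with `K > deg P`, and the `p`-th power integrals of such
products are nearly multiplicative for `K` large, uniformly in `Q`.  So it suffices to find one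
such polynomial `F` with `‖S F‖_p > ‖F‖_p` and to take the products of `F(z^(K^i))`.  To find `F`
start from `g(z) = u + z + u z^2`, `u = (3+4i)/5`; the number `I`, the mean of
`|g|^(p-2) g conj(z)`, is not real for `p < 2`.  Hence some power `I^M` has negative real part, and
a product `h` of `M` rapidly dilated copies of `g` has a coefficient equal to `1` such that
increasing this coefficient slightly decreases the `L_p` norm.
-/

open Complex MeasureTheory Set intervalIntegral Polynomial

namespace Pool.Agent.Results.MP_7d00fe_an.PowerGrowth

open Pool.Agent.R989.Tr

/-- For every `p ∈ (0,2)` the norms of the truncation operators grow at least like a power of `n`. -/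
theorem result : ∀ p : ℝ, 0 < p → p < 2 →
    ∃ c δ : ℝ, 0 < c ∧ 0 < δ ∧ ∀ n : ℕ, 1 ≤ n → ENNReal.ofReal (c * (n : ℝ) ^ δ) ≤ normS p n :=
  fun p hp0 hp2 => growth p hp0 hp2

end Pool.Agent.Results.MP_7d00fe_an.PowerGrowth
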